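import Pool.Agent.L5helper32.GR.Defs

/-!
# The gcd recursion with random residues: the number of roots
-/

set_option autoImplicit false

open Finset

namespace Pool.Agent.L5helper37.GRRoots

open Pool.Agent.L5helper32.GR

theorem w_pos {p r : ℕ} (_hp : p.Prime) (hr : r.Prime) : 1 ≤ w p r := by
  unfold w
  refine Finset.card_pos.2 ⟨0, Finset.mem_filter.2 ⟨Finset.mem_range.2 hr.pos, ?_⟩⟩
  simp [Root, Nat.ModEq]

theorem w_le {p r : ℕ} (hp : p.Prime) (hr : r.Prime) : w p r ≤ p := by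
  have : Fact r.Prime := ⟨hr⟩
  unfold w
  classical
  have hcard : (Polynomial.nthRoots p (1 : ZMod r)).toFinset.card ≤ p :=
    (Multiset.toFinset_card_le _).trans (Polynomial.card_nthRoots p 1)
  refine le_trans ?_ hcard
  refine Finset.card_le_card_of_injOn (fun t : ℕ => ((t + 1 : ℕ) : ZMod r)) ?_ ?_
  · intro t ht
    have ht' := (Finset.mem_filter.1 (Finset.mem_coe.1 ht)).2
    rw [Finset.mem_coe, Multiset.mem_toFinset, Polynomial.mem_nthRoots hp.pos]
    have h2 : (((t + 1) ^ p : ℕ) : ZMod r) = ((1 : ℕ) : ZMod r) :=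
      (ZMod.natCast_eq_natCast_iff _ _ _).2 ht'
    push_cast at h2 ⊢
    exact h2
  · intro t ht t' ht' h
    have h1 := Finset.mem_range.1 (Finset.mem_filter.1 (Finset.mem_coe.1 ht)).1
    have h2 := Finset.mem_range.1 (Finset.mem_filter.1 (Finset.mem_coe.1 ht')).1
    have h3 : t + 1 ≡ t' + 1 [MOD r] := (ZMod.natCast_eq_natCast_iff _ _ _).1 h
    exact (Nat.ModEq.add_right_cancel' 1 h3).eq_of_lt_of_lt h1 h2

theorem w_lt {p r : ℕ} (hp : p.Prime) (hr : r.Prime) : w p r < r := by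
  unfold w
  have hlt : #{t ∈ range r | Root p r t} < #(range r) := by
    refine Finset.card_lt_card (Finset.filter_ssubset.2 ⟨r - 1, ?_, ?_⟩)
    · rw [Finset.mem_range]; have := hr.pos; omega
    · intro h
      unfold Root at h
      rw [Nat.sub_add_cancel hr.pos] at h
      have h1 : r ^ p ≡ 0 [MOD r] := (Nat.modEq_zero_iff_dvd).2 (dvd_pow_self r hp.ne_zero)
      have h2 : (1 : ℕ) ≡ 0 [MOD r] := h.symm.trans h1
      have h3 := (Nat.modEq_zero_iff_dvd).1 h2
      exact hr.one_lt.ne' (Nat.dvd_one.1 h3)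
  simpa using hlt

theorem factor_pos {p r : ℕ} (hp : p.Prime) (hr : r.Prime) : 0 < 1 - (w p r : ℝ) / r := by
  have h1 : (w p r : ℝ) < r := by exact_mod_cast w_lt hp hr
  have h2 : (0 : ℝ) < r := by exact_mod_cast hr.pos
  rw [sub_pos, div_lt_one h2]
  exact h1

theorem sg_pos {p : ℕ} (hp : p.Prime) (a b : ℕ) : 0 < sg p a b := by
  unfold sg
  refine Finset.prod_pos fun r hr => factor_pos hp ?_
  exact (Finset.mem_filter.1 hr).2

theorem sg_le_one {p : ℕ} (hp : p.Prime) (a b : ℕ) : sg p a b ≤ 1 := by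
  unfold sg
  refine Finset.prod_le_one (fun r hr => (factor_pos hp (Finset.mem_filter.1 hr).2).le) ?_
  intro r _
  have : (0 : ℝ) ≤ (w p r : ℝ) / r := by positivity
  linarith

end Pool.Agent.L5helper37.GRRoots
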