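import Pool.Agent.L5helper32.GR.Defs

/-!
# The gcd recursion with random residues: deterministic facts on the jump
-/

set_option autoImplicit false

open Finset

namespace Pool.Agent.L5helper37.GRDet

open Pool.Agent.L5helper32.GR

theorem jump_pos (p : ℕ) (T : ℕ → ℕ) (x : ℕ) : 1 ≤ jump p T x := by
  unfold jump
  exact Finset.prod_pos fun r hr => (Nat.prime_of_mem_primeFactors (Finset.mem_filter.1 hr).1).pos

theorem jump_dvd (p : ℕ) (T : ℕ → ℕ) {x : ℕ} (_hx : x ≠ 0) : jump p T x ∣ x := by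
  unfold jump
  exact (Finset.prod_dvd_prod_of_subset _ _ _ (Finset.filter_subset _ _)).trans
    (Nat.prod_primeFactors_dvd x)

theorem jump_le (p : ℕ) (T : ℕ → ℕ) {x : ℕ} (hx : x ≠ 0) : jump p T x ≤ x :=
  Nat.le_of_dvd (Nat.pos_of_ne_zero hx) (jump_dvd p T hx)

theorem jump_zero (p : ℕ) (T : ℕ → ℕ) : jump p T 0 = 1 := by
  simp [jump]

theorem jump_eq_one_iff {p : ℕ} {T : ℕ → ℕ} {x : ℕ} :
    jump p T x = 1 ↔ ∀ r, r.Prime → r ∣ x → x ≠ 0 → ¬ Root p r (T r) := by
  constructor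
  · intro h r hr hrx hx hroot
    have hmem : r ∈ x.primeFactors.filter (fun r => Root p r (T r)) :=
      Finset.mem_filter.2 ⟨Nat.mem_primeFactors.2 ⟨hr, hrx, hx⟩, hroot⟩
    have hd : r ∣ jump p T x := Finset.dvd_prod_of_mem (fun r => r) hmem
    rw [h] at hd
    exact hr.one_lt.ne' (Nat.dvd_one.1 hd)
  · intro h
    unfold jump
    rw [Finset.filter_eq_empty_iff.2, Finset.prod_empty]
    intro r hr
    obtain ⟨h1, h2, h3⟩ := Nat.mem_primeFactors.1 hr
    exact h r h1 h2 h3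

/-- If `jump ≥ 2`, there is a prime which divides `x` and has a root as residue. -/
theorem exists_root_of_jump {p : ℕ} {T : ℕ → ℕ} {x : ℕ} (h : 2 ≤ jump p T x) :
    ∃ r, r.Prime ∧ r ∣ x ∧ Root p r (T r) := by
  by_contra hc
  push Not at hc
  have : jump p T x = 1 := jump_eq_one_iff.2 fun r hr hrx _ => hc r hr hrx
  omega

theorem exists_kill {p : ℕ} {T : ℕ → ℕ} {x y r : ℕ} (hr : r.Prime) (hry : r ≤ y) (hyx : y ≤ x)
    (hroot : Root p r (T r)) :
    ∃ i < y, (∀ i' < i, jump p T (x - i') = 1) ∧ 2 ≤ jump p T (x - i) := by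
  classical
  have hlt : x % r < r := Nat.mod_lt _ hr.pos
  have hdvd : r ∣ x - x % r := Nat.dvd_sub_mod x
  have hne : x - x % r ≠ 0 := by omega
  have hex : ∃ i, jump p T (x - i) ≠ 1 :=
    ⟨x % r, fun h => jump_eq_one_iff.1 h r hr hdvd hne hroot⟩
  refine ⟨Nat.find hex, ?_, ?_, ?_⟩
  · have : Nat.find hex ≤ x % r :=
      Nat.find_min' hex fun h => jump_eq_one_iff.1 h r hr hdvd hne hroot
    omega
  · intro i' hi'
    have := Nat.find_min hex hi'
    push Not at this
    exact this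
  · have h1 := Nat.find_spec hex
    have h2 := jump_pos p T (x - Nat.find hex)
    omega

end Pool.Agent.L5helper37.GRDet
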